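import Pool.Agent.H752.PG.Stubs

/-!
# Hoeffding's inequality (task P3 of project PG, by helper279)
-/

namespace Pool.Agent.H752.PG

open Pool.Agent.NPC Pool.Agent.H620R2.Gauge Finset H568R2 MeasureTheory

namespace P3

open Classical in
/-- one-sided Hoeffding inequality (with the constant 64), in counting form -/
theorem hoeff {S W : Type} [Fintype S] [DecidableEq S] [Fintype W] (g : W → ℝ) (h1 : ∀ w, |g w| ≤ 1)
    (h0 : ∑ w, g w = 0) (h2 : ∑ w, g w ^ 2 ≤ (Fintype.card W : ℝ) / 4) :
    ((univ.filter (fun c : S → W => (Fintype.card S : ℝ) / 8 < ∑ s, g (c s))).card : ℝ) ≤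
      Real.exp (-(Fintype.card S : ℝ) / 64) * (Fintype.card W : ℝ) ^ Fintype.card S := by
  set n : ℝ := (Fintype.card S : ℝ) with hn
  have hsum : ∑ w, Real.exp (g w / 4) ≤ (Fintype.card W : ℝ) * Real.exp (1 / 64) := by
    have e1 : ∀ w, Real.exp (g w / 4) ≤ 1 + g w / 4 + g w ^ 2 / 16 := by
      intro w
      have hw := h1 w
      have h3 : |g w / 4| ≤ 1 := by
        rw [abs_div, abs_of_pos (by norm_num : (0 : ℝ) < 4)]
        linarith
      have h4 := (abs_le.1 (Real.abs_exp_sub_one_sub_id_le h3)).2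
      nlinarith
    have e2 : ∑ w, (1 + g w / 4 + g w ^ 2 / 16) =
        (Fintype.card W : ℝ) + (∑ w, g w) / 4 + (∑ w, g w ^ 2) / 16 := by
      rw [Finset.sum_add_distrib, Finset.sum_add_distrib, Finset.sum_div, Finset.sum_div]
      simp
    have e3 : (1 : ℝ) + 1 / 64 ≤ Real.exp (1 / 64) := by
      have := Real.add_one_le_exp (1 / 64 : ℝ)
      linarith
    have e4 : (0 : ℝ) ≤ (Fintype.card W : ℝ) := Nat.cast_nonneg _
    calc ∑ w, Real.exp (g w / 4) ≤ ∑ w, (1 + g w / 4 + g w ^ 2 / 16) :=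
          Finset.sum_le_sum fun w _ => e1 w
      _ = (Fintype.card W : ℝ) + (∑ w, g w) / 4 + (∑ w, g w ^ 2) / 16 := e2
      _ ≤ (Fintype.card W : ℝ) * (1 + 1 / 64) := by rw [h0]; linarith
      _ ≤ (Fintype.card W : ℝ) * Real.exp (1 / 64) := mul_le_mul_of_nonneg_left e3 e4
  have hsum0 : 0 ≤ ∑ w, Real.exp (g w / 4) := Finset.sum_nonneg fun w _ => (Real.exp_pos _).le
  have hprod : ∀ c : S → W, ∏ s, Real.exp (g (c s) / 4) = Real.exp ((∑ s, g (c s)) / 4) := by
    intro c
    rw [← Real.exp_sum, Finset.sum_div]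
  have hpi : ∑ c : S → W, ∏ s, Real.exp (g (c s) / 4) = (∑ w, Real.exp (g w / 4)) ^ Fintype.card S := by
    have h3 := Finset.prod_univ_sum (fun _ : S => (univ : Finset W))
      (fun _ w => Real.exp (g w / 4))
    rw [Fintype.piFinset_univ] at h3
    rw [← h3, Finset.prod_const, Finset.card_univ]
  have h3 : ((univ.filter (fun c : S → W => n / 8 < ∑ s, g (c s))).card : ℝ) *
      Real.exp (n / 32) ≤ ((Fintype.card W : ℝ) * Real.exp (1 / 64)) ^ Fintype.card S := by
    calc _ = ∑ c ∈ univ.filter (fun c : S → W => n / 8 < ∑ s, g (c s)), Real.exp (n / 32) := by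
          rw [Finset.sum_const, nsmul_eq_mul]
      _ ≤ ∑ c ∈ univ.filter (fun c : S → W => n / 8 < ∑ s, g (c s)),
            ∏ s, Real.exp (g (c s) / 4) := by
          refine Finset.sum_le_sum fun c hc => ?_
          rw [hprod c]
          have := (Finset.mem_filter.1 hc).2
          exact Real.exp_le_exp.2 (by linarith)
      _ ≤ ∑ c : S → W, ∏ s, Real.exp (g (c s) / 4) := by
          refine Finset.sum_le_sum_of_subset_of_nonneg (Finset.filter_subset _ _) fun c _ _ => ?_
          exact Finset.prod_nonneg fun s _ => (Real.exp_pos _).le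
      _ = (∑ w, Real.exp (g w / 4)) ^ Fintype.card S := hpi
      _ ≤ _ := pow_le_pow_left₀ hsum0 hsum _
  have h4 : ((Fintype.card W : ℝ) * Real.exp (1 / 64)) ^ Fintype.card S =
      (Real.exp (-n / 64) * (Fintype.card W : ℝ) ^ Fintype.card S) * Real.exp (n / 32) := by
    have e1 : Real.exp (1 / 64) ^ Fintype.card S = Real.exp (-n / 64) * Real.exp (n / 32) := by
      rw [← Real.exp_nat_mul, ← Real.exp_add]
      congr 1
      rw [← hn]
      ring
    rw [mul_pow, e1]
    ring
  rw [h4] at h3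
  exact le_of_mul_le_mul_right h3 (Real.exp_pos _)

open Classical in
/-- two-sided version for a `Bool`-valued function -/
theorem count {m d : ℕ} (H : (Fin m → Bool) → Bool) :
    ((univ.filter (fun c : (Fin d → Bool) → Fin m → Bool => (1 : ℝ) / 8 <
      |(Nat.card {s : Fin d → Bool // H (c s) = true} : ℝ) / 2 ^ d -
        (Nat.card {x : Fin m → Bool // H x = true} : ℝ) / 2 ^ m|)).card : ℝ) ≤
      2 * Real.exp (-(2 ^ d) / 128) * (2 ^ m) ^ (2 ^ d) := by
  set p : ℝ := (Nat.card {x : Fin m → Bool // H x = true} : ℝ) / 2 ^ m with hp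
  set g : (Fin m → Bool) → ℝ := fun w => (if H w = true then (1 : ℝ) else 0) - p with hg
  have hW : (Fintype.card (Fin m → Bool) : ℝ) = 2 ^ m := by simp
  have hS : (Fintype.card (Fin d → Bool) : ℝ) = 2 ^ d := by simp
  have hSn : Fintype.card (Fin d → Bool) = 2 ^ d := by simp
  have hcard : ∑ w : Fin m → Bool, (if H w = true then (1 : ℝ) else 0) = p * 2 ^ m := by
    rw [hp, Finset.sum_boole, Nat.card_eq_fintype_card, Fintype.card_subtype]
    field_simp
  have hp0 : 0 ≤ p := by positivity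
  have hp1 : p ≤ 1 := by
    rw [hp, div_le_one (by positivity)]
    have h3 : Nat.card {x : Fin m → Bool // H x = true} ≤ 2 ^ m := by
      rw [Nat.card_eq_fintype_card]
      refine (Fintype.card_subtype_le _).trans ?_
      simp
    exact_mod_cast h3
  have hg1 : ∀ w, |g w| ≤ 1 := by
    intro w
    simp only [hg]
    rw [abs_le]
    split_ifs <;> constructor <;> linarith
  have hg0 : ∑ w, g w = 0 := by
    simp only [hg]
    rw [Finset.sum_sub_distrib, hcard, Finset.sum_const, Finset.card_univ, nsmul_eq_mul, hW]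
    ring
  have hg2 : ∑ w, g w ^ 2 ≤ (Fintype.card (Fin m → Bool) : ℝ) / 4 := by
    have e1 : ∀ w, g w ^ 2 = (if H w = true then (1 : ℝ) else 0) * (1 - 2 * p) + p ^ 2 := by
      intro w
      simp only [hg]
      split_ifs <;> ring
    rw [Finset.sum_congr rfl fun w _ => e1 w, Finset.sum_add_distrib, ← Finset.sum_mul, hcard,
      Finset.sum_const, Finset.card_univ, nsmul_eq_mul, hW]
    have h3 : (0 : ℝ) < 2 ^ m := by positivity
    nlinarith [sq_nonneg (2 * p - 1), mul_nonneg h3.le (sq_nonneg (2 * p - 1))]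
  have hsumc : ∀ c : (Fin d → Bool) → Fin m → Bool, ∑ s, g (c s) =
      (Nat.card {s : Fin d → Bool // H (c s) = true} : ℝ) - p * 2 ^ d := by
    intro c
    simp only [hg]
    rw [Finset.sum_sub_distrib, Finset.sum_boole, Finset.sum_const, Finset.card_univ,
      nsmul_eq_mul, hS, Nat.card_eq_fintype_card, Fintype.card_subtype]
    ring
  have hsub : (univ.filter (fun c : (Fin d → Bool) → Fin m → Bool => (1 : ℝ) / 8 <
      |(Nat.card {s : Fin d → Bool // H (c s) = true} : ℝ) / 2 ^ d - p|)) ⊆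
      (univ.filter (fun c : (Fin d → Bool) → Fin m → Bool =>
        (Fintype.card (Fin d → Bool) : ℝ) / 8 < ∑ s, g (c s))) ∪
      (univ.filter (fun c : (Fin d → Bool) → Fin m → Bool =>
        (Fintype.card (Fin d → Bool) : ℝ) / 8 < ∑ s, - g (c s))) := by
    intro c hc
    have h3 := (Finset.mem_filter.1 hc).2
    have h4 : (0 : ℝ) < 2 ^ d := by positivity
    have h5 : (Nat.card {s : Fin d → Bool // H (c s) = true} : ℝ) / 2 ^ d - p =
        (∑ s, g (c s)) / 2 ^ d := by
      rw [hsumc c]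
      field_simp
    rw [h5] at h3
    rw [Finset.mem_union, Finset.mem_filter, Finset.mem_filter, hS]
    rcases lt_abs.1 h3 with h | h
    · left
      refine ⟨Finset.mem_univ _, ?_⟩
      rw [lt_div_iff₀ h4] at h
      linarith
    · right
      refine ⟨Finset.mem_univ _, ?_⟩
      rw [← neg_div, lt_div_iff₀ h4] at h
      simp only [Finset.sum_neg_distrib]
      linarith
  have hA := hoeff (S := Fin d → Bool) g hg1 hg0 hg2
  have hB := hoeff (S := Fin d → Bool) (fun w => - g w) (fun w => by rw [abs_neg]; exact hg1 w)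
    (by rw [Finset.sum_neg_distrib, hg0, neg_zero]) (by simpa using hg2)
  have h6 : (((univ.filter (fun c : (Fin d → Bool) → Fin m → Bool => (1 : ℝ) / 8 <
      |(Nat.card {s : Fin d → Bool // H (c s) = true} : ℝ) / 2 ^ d - p|)).card : ℕ) : ℝ) ≤
      ((univ.filter (fun c : (Fin d → Bool) → Fin m → Bool =>
        (Fintype.card (Fin d → Bool) : ℝ) / 8 < ∑ s, g (c s))).card : ℝ) +
      ((univ.filter (fun c : (Fin d → Bool) → Fin m → Bool =>
        (Fintype.card (Fin d → Bool) : ℝ) / 8 < ∑ s, - g (c s))).card : ℝ) := by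
    exact_mod_cast (Finset.card_le_card hsub).trans (Finset.card_union_le _ _)
  rw [hS, hW, hSn] at hA hB
  rw [hS] at h6
  have h7 : Real.exp (-(2 ^ d : ℝ) / 64) ≤ Real.exp (-(2 ^ d : ℝ) / 128) := by
    refine Real.exp_le_exp.2 ?_
    have h4 : (0 : ℝ) < 2 ^ d := by positivity
    linarith
  have h8 : (0 : ℝ) ≤ (2 ^ m) ^ (2 ^ d) := by positivity
  have h9 : Real.exp (-(2 ^ d : ℝ) / 64) * (2 ^ m) ^ (2 ^ d) ≤
      Real.exp (-(2 ^ d : ℝ) / 128) * (2 ^ m) ^ (2 ^ d) := mul_le_mul_of_nonneg_right h7 h8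
  linarith

end P3

theorem t_chern : St_chern := by
  classical
  intro I _ _ m d pos F hinj hF Ev hEv
  set π : (Fin d → Bool) × Fin m → I := fun q => pos q.1 q.2 with hπ
  set E : (I → Bool) ≃
      ((Fin d → Bool) × Fin m → Bool) × ({e : I // ¬ (e ∈ Set.range π)} → Bool) :=
    (Equiv.piEquivPiSubtypeProd (fun e => e ∈ Set.range π) (fun _ => Bool)).trans
      (Equiv.prodCongr (Equiv.arrowCongr (Equiv.ofInjective π hinj).symm (Equiv.refl _))
        (Equiv.refl _)) with hE
  have hE1 : ∀ a q, (E a).1 q = a (π q) := by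
    intro a q
    simp [hE, Equiv.piEquivPiSubtypeProd, Equiv.arrowCongr]
  have hE2 : ∀ a e, (E a).2 e = a e.1 := by
    intro a e
    simp [hE, Equiv.piEquivPiSubtypeProd]
  have hS1 : ∀ c b q, E.symm (c, b) (π q) = c q := by
    intro c b q
    rw [← hE1 (E.symm (c, b)) q, Equiv.apply_symm_apply]
  have hS2 : ∀ c b (e : {e : I // ¬ (e ∈ Set.range π)}), E.symm (c, b) e.1 = b e := by
    intro c b e
    rw [← hE2 (E.symm (c, b)) e, Equiv.apply_symm_apply]
  have hFb : ∀ c c' b, F (E.symm (c, b)) = F (E.symm (c', b)) := by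
    intro c c' b
    refine hF _ _ fun e he => ?_
    have he' : ¬ (e ∈ Set.range π) := by
      rintro ⟨q, rfl⟩
      exact he q.1 q.2 rfl
    rw [hS2 c b ⟨e, he'⟩, hS2 c' b ⟨e, he'⟩]
  have hcard : Fintype.card I = 2 ^ d * m + Fintype.card {e : I // ¬ (e ∈ Set.range π)} := by
    have h1 := Fintype.card_subtype_compl (fun e => e ∈ Set.range π)
    have h2 : Fintype.card {e : I // e ∈ Set.range π} = 2 ^ d * m := by
      rw [← Fintype.card_congr (Equiv.ofInjective π hinj)]
      simp
    have h3 := Fintype.card_subtype_le (fun e => e ∈ Set.range π)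
    omega
  have hsum : ∑ a : I → Bool, (if Ev a then (1 : ℝ) else 0) ≤
      2 * Real.exp (-(2 ^ d) / 128) * 2 ^ (2 ^ d * m) *
        2 ^ Fintype.card {e : I // ¬ (e ∈ Set.range π)} := by
    rw [← E.symm.sum_comp, Fintype.sum_prod_type_right]
    have hb : ∀ b : {e : I // ¬ (e ∈ Set.range π)} → Bool,
        ∑ c : (Fin d → Bool) × Fin m → Bool, (if Ev (E.symm (c, b)) then (1 : ℝ) else 0) ≤
          2 * Real.exp (-(2 ^ d) / 128) * 2 ^ (2 ^ d * m) := by
      intro b
      set F' := F (E.symm (fun _ => false, b)) with hF'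
      rw [Finset.sum_boole]
      have h1 : (univ.filter fun c : (Fin d → Bool) × Fin m → Bool => Ev (E.symm (c, b))).card ≤
          (univ.filter (fun c : (Fin d → Bool) → Fin m → Bool => (1 : ℝ) / 8 <
            |(Nat.card {s : Fin d → Bool // F' (c s) = true} : ℝ) / 2 ^ d -
              (Nat.card {x : Fin m → Bool // F' x = true} : ℝ) / 2 ^ m|)).card := by
        refine Finset.card_le_card_of_injOn (fun c s i => c (s, i)) ?_ ?_
        · intro c hc
          have hc' := (Finset.mem_filter.1 hc).2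
          have h2 : ∀ s, (fun t => E.symm (c, b) (pos s t)) = fun t => c (s, t) := by
            intro s
            funext t
            exact hS1 c b (s, t)
          have h3 := hEv _ hc'
          simp only [hFb c (fun _ => false) b, h2, ← hF'] at h3
          exact Finset.mem_coe.2 (Finset.mem_filter.2 ⟨Finset.mem_univ _, h3⟩)
        · intro c _ c' _ hcc
          funext q
          exact congrFun (congrFun hcc q.1) q.2
      have h4 := P3.count (d := d) F'
      have h5 : ((2 : ℝ) ^ m) ^ (2 ^ d) = 2 ^ (2 ^ d * m) := by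
        rw [← pow_mul, mul_comm]
      rw [h5] at h4
      refine le_trans ?_ h4
      exact_mod_cast h1
    calc _ ≤ ∑ b : {e : I // ¬ (e ∈ Set.range π)} → Bool,
          (2 * Real.exp (-(2 ^ d) / 128) * 2 ^ (2 ^ d * m)) :=
          Finset.sum_le_sum fun b _ => hb b
      _ = _ := by
          rw [Finset.sum_const, Finset.card_univ, Fintype.card_fun, Fintype.card_bool, nsmul_eq_mul]
          push_cast
          ring
  unfold Ex
  have hun : ∀ a : I → Bool, (∏ i, unif (a i)) = (1 / 2 : ℝ) ^ Fintype.card I := by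
    intro a
    simp only [unif, Finset.prod_const, Finset.card_univ]
  simp only [hun]
  rw [← Finset.mul_sum]
  calc (1 / 2 : ℝ) ^ Fintype.card I * _ ≤ (1 / 2 : ℝ) ^ Fintype.card I *
        (2 * Real.exp (-(2 ^ d) / 128) * 2 ^ (2 ^ d * m) *
          2 ^ Fintype.card {e : I // ¬ (e ∈ Set.range π)}) := by
          refine mul_le_mul_of_nonneg_left ?_ (by positivity)
          exact hsum
    _ = 2 * Real.exp (-(2 ^ d) / 128) := by
        rw [hcard, pow_add]
        have e1 : (1 / 2 : ℝ) ^ (2 ^ d * m) * 2 ^ (2 ^ d * m) = 1 := by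
          rw [← mul_pow]; norm_num
        have e2 : (1 / 2 : ℝ) ^ Fintype.card {e : I // ¬ (e ∈ Set.range π)} *
            2 ^ Fintype.card {e : I // ¬ (e ∈ Set.range π)} = 1 := by
          rw [← mul_pow]; norm_num
        calc _ = ((1 / 2 : ℝ) ^ (2 ^ d * m) * 2 ^ (2 ^ d * m)) *
              ((1 / 2 : ℝ) ^ Fintype.card {e : I // ¬ (e ∈ Set.range π)} *
              2 ^ Fintype.card {e : I // ¬ (e ∈ Set.range π)}) *
              (2 * Real.exp (-(2 ^ d) / 128)) := by ring
          _ = _ := by rw [e1, e2]; ring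

end Pool.Agent.H752.PG
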